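import Pool.Agent.X59.OC.Fin

/-! Turán's construction attains the bound. -/

set_option autoImplicit false
open Finset
open scoped Classical

namespace Pool.Agent.X59.OC

theorem attained (k n : ℕ) (hk : 1 ≤ k) : ∃ c : Fin n → Fin k,
    (∀ S : Finset (Fin n), S.card = 2 * k + 1 → ∃ s ⊆ S, s.card = 3 ∧ s ∉ turan c) ∧
      (turan c).card + bal n k = n.choose 3 := by
  refine ⟨fun x => ⟨x.1 % k, Nat.mod_lt _ hk⟩, ?_, ?_⟩
  · intro S hS
    obtain ⟨j, -, hj⟩ := exists_lt_card_fiber_of_mul_lt_card_of_maps_to (s := S)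
      (t := (univ : Finset (Fin k))) (f := fun x : Fin n => (⟨x.1 % k, Nat.mod_lt _ hk⟩ : Fin k))
      (n := 2) (fun _ _ => mem_univ _) (by rw [card_univ, Fintype.card_fin, hS]; omega)
    obtain ⟨s, hs, hs3⟩ := exists_subset_card_eq (show 3 ≤ _ from hj)
    refine ⟨s, fun x hx => (mem_filter.1 (hs hx)).1, hs3, fun h => ?_⟩
    unfold turan at h
    rw [mem_filter] at h
    exact h.2 ⟨j, fun x hx => (mem_filter.1 (hs hx)).2⟩
  · have h := card_turan (c := fun x : Fin n => (⟨x.1 % k, Nat.mod_lt _ hk⟩ : Fin k))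
    refine Eq.trans ?_ h
    congr 1
    have hs : ∀ j : Fin k, (Cls
        (fun x : Fin n => (⟨x.1 % k, Nat.mod_lt _ hk⟩ : Fin k)) j).card =
        n / k + if j.1 < n % k then 1 else 0 := by
      intro j
      unfold Cls
      have h1 := Nat.count_modEq_card n hk j.1
      rw [Nat.count_eq_card_filter_range] at h1
      rw [Nat.mod_eq_of_lt j.2] at h1
      rw [← h1]
      refine card_nbij (fun x => x.1) ?_ ?_ ?_
      · intro x hx
        have h2 := (mem_filter.1 hx).2
        refine mem_filter.2 ⟨mem_range.2 x.2, ?_⟩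
        have h3 : x.1 % k = j.1 := congrArg Fin.val h2
        show x.1 % k = j.1 % k
        rw [h3, Nat.mod_eq_of_lt j.2]
      · intro x _ y _ hxy
        exact Fin.ext hxy
      · intro y hy
        have hy' := mem_filter.1 (mem_coe.1 hy)
        refine ⟨⟨y, mem_range.1 hy'.1⟩, ?_, rfl⟩
        refine mem_coe.2 (mem_filter.2 ⟨mem_univ _, ?_⟩)
        apply Fin.ext
        have h4 : y % k = j.1 % k := hy'.2
        rw [Nat.mod_eq_of_lt j.2] at h4
        exact h4
    simp only [hs]
    unfold bal
    have hr : n % k ≤ k := (Nat.mod_lt n hk).le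
    have e1 : ∀ j : Fin k, (n / k + if j.1 < n % k then 1 else 0).choose 3 =
        (n / k).choose 3 + if j.1 < n % k then (n / k).choose 2 else 0 := by
      intro j
      split_ifs
      · rw [Nat.choose_succ_succ' (n / k) 2, add_comm]
      · simp
    simp only [e1]
    rw [sum_add_distrib, sum_const, card_univ, Fintype.card_fin, smul_eq_mul, ← sum_filter,
      sum_const, smul_eq_mul]
    have e2 : ((univ : Finset (Fin k)).filter fun j => j.1 < n % k).card = n % k := by
      rw [Fin.card_filter_val_lt]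
      omega
    rw [e2, Nat.choose_succ_succ' (n / k) 2]
    generalize n % k = r at hr
    generalize n / k = q
    obtain ⟨d, rfl⟩ := Nat.exists_eq_add_of_le hr
    rw [Nat.add_sub_cancel_left]
    ring

end Pool.Agent.X59.OC
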