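import Mathlib

/-! Sums over product sets: resampling one coordinate. -/

set_option autoImplicit false
open Finset
open scoped Classical

namespace Pool.Agent.X59.OC

section upd
variable {ι V : Type} [Fintype ι] [DecidableEq ι] (A : ι → Finset V)

/-- resampling the coordinate `t` -/
lemma sum_upd (t : ι) (f : (ι → V) → ℝ) :
    ((A t).card : ℝ) * ∑ ω ∈ Fintype.piFinset A, f ω =
      ∑ ω ∈ Fintype.piFinset A, ∑ v ∈ A t, f (Function.update ω t v) := by
  rw [← sum_product' (f := fun ω v => f (Function.update ω t v))]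
  have h1 : ∑ p ∈ Fintype.piFinset A ×ˢ A t, f (Function.update p.1 t p.2) =
      ∑ p ∈ Fintype.piFinset A ×ˢ A t, f p.1 := by
    refine sum_nbij' (fun p => (Function.update p.1 t p.2, p.1 t))
      (fun p => (Function.update p.1 t p.2, p.1 t)) ?_ ?_ ?_ ?_ ?_
    · rintro ⟨ω, v⟩ h
      rw [mem_product] at h ⊢
      simp only [Fintype.mem_piFinset] at h ⊢
      refine ⟨fun a => ?_, h.1 t⟩
      by_cases ha : a = t
      · subst ha; simpa using h.2
      · rw [Function.update_of_ne ha]; exact h.1 a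
    · rintro ⟨ω, v⟩ h
      rw [mem_product] at h ⊢
      simp only [Fintype.mem_piFinset] at h ⊢
      refine ⟨fun a => ?_, h.1 t⟩
      by_cases ha : a = t
      · subst ha; simpa using h.2
      · rw [Function.update_of_ne ha]; exact h.1 a
    · rintro ⟨ω, v⟩ h
      simp
    · rintro ⟨ω, v⟩ h
      simp
    · rintro ⟨ω, v⟩ h
      simp
  rw [h1, sum_product' (f := fun ω _ => f ω)]
  simp only [sum_const, nsmul_eq_mul]
  rw [mul_sum]

/-- three different coordinates -/
lemma proj3 {a b d : ι} (hab : a ≠ b) (had : a ≠ d) (hbd : b ≠ d) (g : V → V → V → ℝ) :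
    ((A a).card : ℝ) * (A b).card * (A d).card * ∑ ω ∈ Fintype.piFinset A, g (ω a) (ω b) (ω d) =
      ((Fintype.piFinset A).card : ℝ) * ∑ x ∈ A a, ∑ y ∈ A b, ∑ z ∈ A d, g x y z := by
  have e1 := sum_upd A d (fun ω => g (ω a) (ω b) (ω d))
  have e2 := sum_upd A b (fun ω => ∑ z ∈ A d, g (ω a) (ω b) z)
  have e3 := sum_upd A a (fun ω => ∑ y ∈ A b, ∑ z ∈ A d, g (ω a) y z)
  simp only [Function.update_self, Function.update_of_ne hab, Function.update_of_ne had,
    Function.update_of_ne hbd] at e1 e2 e3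
  rw [sum_const, nsmul_eq_mul] at e3
  rw [← e3, ← e2, ← e1]
  ring

end upd

end Pool.Agent.X59.OC
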