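import Pool.Agent.X59.OC.Mean

/-! The bound for the number of edges. -/

set_option autoImplicit false
open Finset
open scoped Classical

namespace Pool.Agent.X59.OC

variable {n k : ℕ} {H : Finset (Finset (Fin n))} {c : Fin n → Fin k}

/-- the triples which are not contained in a class -/
noncomputable def turan {n k : ℕ} (c : Fin n → Fin k) : Finset (Finset (Fin n)) :=
  ((univ : Finset (Fin n)).powersetCard 3).filter fun t => ¬ ∃ j, ∀ x ∈ t, c x = j

/-- the number of triples inside the classes of a balanced partition -/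
def bal (n k : ℕ) : ℕ := (n % k) * (n / k + 1).choose 3 + (k - n % k) * (n / k).choose 3

lemma six_card {F : Finset (Finset (Fin n))} (h3 : ∀ s ∈ F, s.card = 3) :
    ∑ x : Fin n, ∑ y : Fin n, ∑ z : Fin n, (if ({x, y, z} : Finset (Fin n)) ∈ F then (1 : ℝ) else 0) =
      6 * F.card := by
  have h0 : ∑ x : Fin n, ∑ y : Fin n, ∑ z : Fin n,
      (if ({x, y, z} : Finset (Fin n)) ∈ F then (1 : ℝ) else 0) =
      ((((univ : Finset (Fin n × Fin n × Fin n)).filter fun p =>
        ({p.1, p.2.1, p.2.2} : Finset (Fin n)) ∈ F).card : ℕ) : ℝ) := by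
    rw [card_filter, Fintype.sum_prod_type]
    simp only [Fintype.sum_prod_type]
    push_cast
    rfl
  rw [h0]
  have hf : ∀ p ∈ ((univ : Finset (Fin n × Fin n × Fin n)).filter fun p =>
        ({p.1, p.2.1, p.2.2} : Finset (Fin n)) ∈ F),
      (fun p : Fin n × Fin n × Fin n => ({p.1, p.2.1, p.2.2} : Finset (Fin n))) p ∈ F :=
    fun p hp => (mem_filter.1 hp).2
  have h1 : ((univ : Finset (Fin n × Fin n × Fin n)).filter fun p =>
        ({p.1, p.2.1, p.2.2} : Finset (Fin n)) ∈ F).card = 6 * F.card := by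
    rw [card_eq_sum_card_fiberwise hf]
    rw [sum_const_nat (m := 6), mul_comm]
    intro e he
    obtain ⟨a, b, c, hab, hac, hbc, rfl⟩ := card_eq_three.1 (h3 e he)
    have h2 : ((univ.filter fun p : Fin n × Fin n × Fin n =>
        ({p.1, p.2.1, p.2.2} : Finset (Fin n)) ∈ F).filter fun p =>
        ({p.1, p.2.1, p.2.2} : Finset (Fin n)) = {a, b, c}) =
        {(a, b, c), (a, c, b), (b, a, c), (b, c, a), (c, a, b), (c, b, a)} := by
      ext ⟨x, y, z⟩
      simp only [mem_filter, mem_univ, true_and, mem_insert, mem_singleton, Prod.mk.injEq]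
      constructor
      · rintro ⟨-, h⟩
        have hx : x ∈ ({a, b, c} : Finset (Fin n)) := by rw [← h]; simp
        have hy : y ∈ ({a, b, c} : Finset (Fin n)) := by rw [← h]; simp
        have hz : z ∈ ({a, b, c} : Finset (Fin n)) := by rw [← h]; simp
        have ha : a ∈ ({x, y, z} : Finset (Fin n)) := by rw [h]; simp
        have hb : b ∈ ({x, y, z} : Finset (Fin n)) := by rw [h]; simp
        have hc : c ∈ ({x, y, z} : Finset (Fin n)) := by rw [h]; simp
        simp only [mem_insert, mem_singleton] at hx hy hz ha hb hc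
        clear h he
        have hba := Ne.symm hab
        have hca := Ne.symm hac
        have hcb := Ne.symm hbc
        rcases hx with hx | hx | hx <;> rcases hy with hy | hy | hy <;>
          rcases hz with hz | hz | hz <;> simp only [hx, hy, hz] at ha hb hc ⊢ <;>
          simp_all
      · intro h
        have : ({x, y, z} : Finset (Fin n)) = {a, b, c} := by
          rcases h with ⟨rfl, rfl, rfl⟩ | ⟨rfl, rfl, rfl⟩ | ⟨rfl, rfl, rfl⟩ | ⟨rfl, rfl, rfl⟩ |
            ⟨rfl, rfl, rfl⟩ | ⟨rfl, rfl, rfl⟩ <;> ext w <;> simp <;> tauto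
        exact ⟨by rw [this]; exact he, this⟩
    rw [h2]
    rw [card_insert_of_notMem, card_insert_of_notMem, card_insert_of_notMem,
      card_insert_of_notMem, card_insert_of_notMem, card_singleton]
    all_goals simp [hab, hac, hbc, Ne.symm hab, Ne.symm hac, Ne.symm hbc]
  rw [h1]
  push_cast
  ring

lemma cls_sum (G : Fin k → Fin n → ℝ) : ∑ p, ∑ x ∈ Cls c p, G p x = ∑ x, G (c x) x := by
  unfold Cls
  have : ∀ p, ∑ x ∈ univ.filter (fun x => c x = p), G p x =
      ∑ x ∈ univ.filter (fun x => c x = p), G (c x) x := by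
    intro p
    refine sum_congr rfl fun x hx => ?_
    rw [(mem_filter.1 hx).2]
  simp only [this]
  exact sum_fiberwise univ c fun x => G (c x) x

lemma triple_mem {x y z : Fin n} (hxy : x ≠ y) (hxz : x ≠ z) (hyz : y ≠ z) :
    ({x, y, z} : Finset (Fin n)) ∈ turan c ↔ ¬ (c x = c y ∧ c y = c z) := by
  unfold turan
  rw [mem_filter, mem_powersetCard_univ]
  have : ({x, y, z} : Finset (Fin n)).card = 3 := card_eq_three.2 ⟨x, y, z, hxy, hxz, hyz, rfl⟩
  simp only [this, true_and]
  apply not_congr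
  constructor
  · rintro ⟨j, hj⟩
    have h1 := hj x (by simp)
    have h2 := hj y (by simp)
    have h3 := hj z (by simp)
    exact ⟨h1.trans h2.symm, h2.trans h3.symm⟩
  · rintro ⟨h1, h2⟩
    refine ⟨c x, fun w hw => ?_⟩
    simp only [mem_insert, mem_singleton] at hw
    rcases hw with rfl | rfl | rfl
    · rfl
    · exact h1.symm
    · exact (h1.trans h2).symm

lemma ne_of_card3 {x y z : Fin n} (h : ({x, y, z} : Finset (Fin n)).card = 3) :
    x ≠ y ∧ x ≠ z ∧ y ≠ z := by
  refine ⟨?_, ?_, ?_⟩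
  · rintro rfl
    rw [insert_eq_of_mem (mem_insert_self _ _)] at h
    have := card_le_two (a := x) (b := z)
    omega
  · rintro rfl
    rw [insert_eq_of_mem (by simp)] at h
    have := card_le_two (a := y) (b := x)
    omega
  · rintro rfl
    rw [insert_eq_of_mem (mem_singleton_self _)] at h
    have := card_le_two (a := x) (b := y)
    omega

lemma card_inside (h3 : ∀ s ∈ H, s.card = 3) : 6 * ((H \ turan c).card : ℝ) = ∑ i, Bo H c i := by
  rw [← six_card (fun s hs => h3 s (mem_sdiff.1 hs).1)]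
  unfold Bo
  rw [cls_sum (fun i x => ∑ y ∈ Cls c i, ∑ z ∈ Cls c i, e H x y z)]
  refine sum_congr rfl fun x _ => ?_
  unfold Cls
  rw [sum_filter]
  refine sum_congr rfl fun y _ => ?_
  rw [sum_filter]
  by_cases hy : c y = c x
  · rw [if_pos hy]
    refine sum_congr rfl fun z _ => ?_
    unfold e
    by_cases hz : c z = c x
    · rw [if_pos hz]
      congr 1
      rw [mem_sdiff]
      apply propext
      constructor
      · exact fun h => h.1
      · intro h
        obtain ⟨h1, h2, h4⟩ := ne_of_card3 (h3 _ h)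
        exact ⟨h, fun h' => (triple_mem h1 h2 h4).1 h' ⟨hy.symm, hy.trans hz.symm⟩⟩
    · rw [if_neg hz, if_neg]
      rw [mem_sdiff]
      rintro ⟨h, h'⟩
      obtain ⟨h1, h2, h4⟩ := ne_of_card3 (h3 _ h)
      apply h'
      rw [triple_mem h1 h2 h4]
      rintro ⟨e1, e2⟩
      exact hz (e2.symm.trans e1.symm)
  · rw [if_neg hy]
    refine sum_eq_zero fun z _ => ?_
    rw [if_neg]
    rw [mem_sdiff]
    rintro ⟨h, h'⟩
    obtain ⟨h1, h2, h4⟩ := ne_of_card3 (h3 _ h)
    apply h'
    rw [triple_mem h1 h2 h4]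
    rintro ⟨e1, -⟩
    exact hy e1.symm

lemma card_missing : 6 * ((turan c \ H).card : ℝ) = Mt H c := by
  have h3 : ∀ s ∈ turan c \ H, s.card = 3 := by
    intro s hs
    have := (mem_sdiff.1 hs).1
    unfold turan at this
    rw [mem_filter, mem_powersetCard_univ] at this
    exact this.1
  rw [← six_card h3]
  have e1 : Mt H c = ∑ x, ∑ y, ∑ z, (if c x = c y ∧ c y = c z then 0 else mi H x y z) := by
    unfold Mt Mc
    have a1 : ∀ p q r : Fin k, (if p = q ∧ q = r then (0 : ℝ) else
        ∑ x ∈ Cls c p, ∑ y ∈ Cls c q, ∑ z ∈ Cls c r, mi H x y z) =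
        ∑ x ∈ Cls c p, ∑ y ∈ Cls c q, ∑ z ∈ Cls c r,
          (if p = q ∧ q = r then (0 : ℝ) else mi H x y z) := by
      intro p q r
      by_cases h : p = q ∧ q = r
      · simp [h]
      · simp [h]
    simp only [a1]
    have a2 : ∀ p : Fin k, ∑ q, ∑ r, ∑ x ∈ Cls c p, ∑ y ∈ Cls c q, ∑ z ∈ Cls c r,
          (if p = q ∧ q = r then (0 : ℝ) else mi H x y z) =
        ∑ x ∈ Cls c p, ∑ q, ∑ y ∈ Cls c q, ∑ r, ∑ z ∈ Cls c r,
          (if p = q ∧ q = r then (0 : ℝ) else mi H x y z) := by
      intro p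
      rw [sum_comm]
      have : ∀ r q, ∑ x ∈ Cls c p, ∑ y ∈ Cls c q, ∑ z ∈ Cls c r,
          (if p = q ∧ q = r then (0 : ℝ) else mi H x y z) =
          ∑ x ∈ Cls c p, ∑ y ∈ Cls c q, ∑ z ∈ Cls c r,
          (if p = q ∧ q = r then (0 : ℝ) else mi H x y z) := fun _ _ => rfl
      rw [sum_comm]
      simp only [sum_comm (s := (univ : Finset (Fin k))) (t := Cls c p)]
      refine sum_congr rfl fun x _ => ?_
      refine sum_congr rfl fun q _ => ?_
      rw [sum_comm]
    simp only [a2]
    rw [cls_sum (fun p x => ∑ q, ∑ y ∈ Cls c q, ∑ r, ∑ z ∈ Cls c r,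
      (if p = q ∧ q = r then (0 : ℝ) else mi H x y z))]
    refine sum_congr rfl fun x _ => ?_
    rw [cls_sum (fun q y => ∑ r, ∑ z ∈ Cls c r,
      (if c x = q ∧ q = r then (0 : ℝ) else mi H x y z))]
    refine sum_congr rfl fun y _ => ?_
    rw [cls_sum (fun r z => (if c x = c y ∧ c y = r then (0 : ℝ) else mi H x y z))]
  rw [e1]
  refine sum_congr rfl fun x _ => sum_congr rfl fun y _ => sum_congr rfl fun z _ => ?_
  by_cases hc : c x = c y ∧ c y = c z
  · rw [if_pos hc, if_neg]
    rw [mem_sdiff]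
    rintro ⟨h, h'⟩
    have h5 := h
    unfold turan at h5
    rw [mem_filter, mem_powersetCard_univ] at h5
    obtain ⟨h1, h2, h4⟩ := ne_of_card3 h5.1
    exact (triple_mem h1 h2 h4).1 h hc
  · rw [if_neg hc]
    unfold mi Mi
    congr 1
    apply propext
    rw [mem_sdiff]
    constructor
    · rintro ⟨h, h'⟩
      have h5 := h
      unfold turan at h5
      rw [mem_filter, mem_powersetCard_univ] at h5
      obtain ⟨h1, h2, h4⟩ := ne_of_card3 h5.1
      exact ⟨h1, h2, h4, h'⟩
    · rintro ⟨h1, h2, h4, h'⟩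
      exact ⟨(triple_mem h1 h2 h4).2 hc, h'⟩

lemma card_turan : (turan c).card + ∑ j, ((Cls c j).card).choose 3 = n.choose 3 := by
  have h1 : (((univ : Finset (Fin n)).powersetCard 3).filter
      fun t => ∃ j, ∀ x ∈ t, c x = j) = univ.biUnion fun j => (Cls c j).powersetCard 3 := by
    ext t
    rw [mem_filter, mem_powersetCard_univ, mem_biUnion]
    constructor
    · rintro ⟨h, j, hj⟩
      refine ⟨j, mem_univ _, ?_⟩
      rw [mem_powersetCard]
      exact ⟨fun x hx => mem_filter.2 ⟨mem_univ _, hj x hx⟩, h⟩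
    · rintro ⟨j, -, hj⟩
      rw [mem_powersetCard] at hj
      exact ⟨hj.2, j, fun x hx => (mem_filter.1 (hj.1 hx)).2⟩
  have h2 : (univ.biUnion fun j => (Cls c j).powersetCard 3).card =
      ∑ j, ((Cls c j).card).choose 3 := by
    rw [card_biUnion]
    · simp only [card_powersetCard]
    · intro i _ j _ hij
      rw [Function.onFun, disjoint_left]
      intro t ht ht'
      rw [mem_powersetCard] at ht ht'
      have : 0 < t.card := by rw [ht.2]; norm_num
      obtain ⟨x, hx⟩ := card_pos.1 this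
      exact hij (((mem_filter.1 (ht.1 hx)).2).symm.trans (mem_filter.1 (ht'.1 hx)).2)
  rw [← h2, ← h1]
  unfold turan
  rw [add_comm, card_filter_add_card_filter_not]
  rw [card_powersetCard, card_univ, Fintype.card_fin]

end Pool.Agent.X59.OC
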