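import Pool.Agent.X59.OC.Fin

/-! Turán's number as an exact bound. -/

set_option autoImplicit false
open Finset
open scoped Classical

namespace Pool.Agent.X59.OC

variable {n k : ℕ} {H : Finset (Finset (Fin n))} {c : Fin n → Fin k}

lemma six_choose (s : ℕ) : (6 : ℝ) * (s.choose 3 : ℕ) = (s : ℝ) ^ 3 - 3 * (s : ℝ) ^ 2 + 2 * s := by
  have h2 : ∀ s : ℕ, (2 : ℝ) * (s.choose 2 : ℕ) = (s : ℝ) ^ 2 - s := by
    intro s
    induction s with
    | zero => simp
    | succ s ih =>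
      rw [Nat.choose_succ_succ' s 1, Nat.choose_one_right]
      push_cast
      linarith
  induction s with
  | zero => simp
  | succ s ih =>
    rw [Nat.choose_succ_succ' s 2]
    have := h2 s
    push_cast
    nlinarith

lemma two_choose (s : ℕ) : (2 : ℝ) * (s.choose 2 : ℕ) = (s : ℝ) ^ 2 - s := by
  induction s with
  | zero => simp
  | succ s ih =>
    rw [Nat.choose_succ_succ' s 1, Nat.choose_one_right]
    push_cast
    linarith

/-- the tangent of `C(s, 3)` at `q` -/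
lemma tangent (s q : ℕ) : ((q.choose 3 : ℕ) : ℝ) + ((s : ℝ) - q) * (q.choose 2 : ℕ) ≤
    (s.choose 3 : ℕ) := by
  have h1 := six_choose s
  have h2 := six_choose q
  have h3 := two_choose q
  have key : (0 : ℤ) ≤ ((s : ℤ) - q) * ((s : ℤ) - q - 1) * ((s : ℤ) + 2 * q - 2) := by
    have hp : (0 : ℤ) ≤ ((s : ℤ) - q) * ((s : ℤ) - q - 1) := by
      rcases le_or_gt ((s : ℤ) - q) 0 with h | h
      · nlinarith
      · have : (1 : ℤ) ≤ (s : ℤ) - q := h
        nlinarith
    by_cases h : 2 ≤ s + 2 * q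
    · apply mul_nonneg hp
      have : (2 : ℤ) ≤ (s : ℤ) + 2 * q := by exact_mod_cast h
      linarith
    · have hq : q = 0 := by omega
      have hs : s = 0 ∨ s = 1 := by omega
      rcases hs with rfl | rfl <;> subst hq <;> norm_num
  have key' : (0 : ℝ) ≤ ((s : ℝ) - q) * ((s : ℝ) - q - 1) * ((s : ℝ) + 2 * q - 2) := by
    exact_mod_cast key
  have e : 6 * (((q.choose 3 : ℕ) : ℝ) + ((s : ℝ) - q) * (q.choose 2 : ℕ)) =
      (q : ℝ) ^ 3 - 3 * (q : ℝ) ^ 2 + 2 * q + 3 * ((s : ℝ) - q) * ((q : ℝ) ^ 2 - q) := by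
    rw [← h2, ← h3]
    ring
  nlinarith

lemma sum_sz : ∑ j, sz c j = n := by
  unfold sz
  have h := card_eq_sum_card_fiberwise (s := (univ : Finset (Fin n))) (t := (univ : Finset (Fin k)))
    (f := c) (fun _ _ => mem_univ _)
  rw [card_univ, Fintype.card_fin] at h
  have h' : n = ∑ j, (Cls c j).card := h
  exact_mod_cast h'.symm

lemma bal_le (hk : 0 < k) : ((bal n k : ℕ) : ℝ) ≤ ∑ j, (((Cls c j).card.choose 3 : ℕ) : ℝ) := by
  set q := n / k with hq
  have h1 : ∑ j, (((q.choose 3 : ℕ) : ℝ) + (sz c j - q) * (q.choose 2 : ℕ)) ≤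
      ∑ j, (((Cls c j).card.choose 3 : ℕ) : ℝ) := sum_le_sum fun j _ => tangent _ _
  refine le_trans (le_of_eq ?_) h1
  rw [sum_add_distrib, ← sum_mul, sum_sub_distrib, sum_sz]
  simp only [sum_const, card_univ, Fintype.card_fin, nsmul_eq_mul]
  unfold bal
  have hr : n % k ≤ k := (Nat.mod_lt n hk).le
  have hn : (n : ℝ) = k * q + (n % k : ℕ) := by
    have := Nat.div_add_mod n k
    rw [← hq] at this
    exact_mod_cast this.symm
  have hc : (q + 1).choose 3 = q.choose 2 + q.choose 3 := Nat.choose_succ_succ' q 2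
  rw [← hq, hc]
  push_cast [Nat.cast_sub hr]
  have hn' : (n : ℝ) - k * q = (n % k : ℕ) := by rw [hn]; ring
  have e1 : ((n : ℝ) - ↑k * ↑q) * ((q.choose 2 : ℕ) : ℝ) =
      ((n % k : ℕ) : ℝ) * ((q.choose 2 : ℕ) : ℝ) := by rw [hn']
  nlinarith

lemma six_bal_le (hk : 0 < k) : 6 * ((bal n k : ℕ) : ℝ) ≤ n * ((n : ℝ) / k + 1) ^ 2 := by
  set q := n / k with hq
  have hk0 : (0 : ℝ) < k := by exact_mod_cast hk
  have hq1 : (q : ℝ) ≤ (n : ℝ) / k := by rw [hq]; exact Nat.cast_div_le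
  have hr : n % k ≤ k := (Nat.mod_lt n hk).le
  have hn : (n : ℝ) = k * q + (n % k : ℕ) := by
    have := Nat.div_add_mod n k
    rw [← hq] at this
    exact_mod_cast this.symm
  have hb : ∀ t : ℕ, (t : ℝ) ≤ (n : ℝ) / k + 1 → 6 * ((t.choose 3 : ℕ) : ℝ) ≤
      t * ((n : ℝ) / k + 1) ^ 2 := by
    intro t ht
    rw [six_choose]
    have t0 : (0 : ℝ) ≤ t := Nat.cast_nonneg t
    rcases Nat.eq_zero_or_pos t with rfl | htp
    · simp
    · have t1 : (1 : ℝ) ≤ t := by exact_mod_cast htp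
      have h1 : (t : ℝ) ^ 2 ≤ ((n : ℝ) / k + 1) ^ 2 := by nlinarith
      nlinarith [mul_le_mul_of_nonneg_left h1 t0]
  have b1 := hb (q + 1) (by push_cast; linarith)
  have b2 := hb q (by linarith)
  unfold bal
  rw [← hq]
  push_cast [Nat.cast_sub hr] at b1 ⊢
  have r0 : (0 : ℝ) ≤ ((n % k : ℕ) : ℝ) := Nat.cast_nonneg _
  have r1 : (0 : ℝ) ≤ (k : ℝ) - ((n % k : ℕ) : ℝ) := by
    have : ((n % k : ℕ) : ℝ) ≤ k := by exact_mod_cast hr
    linarith
  have c1 := mul_le_mul_of_nonneg_left b1 r0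
  have c2 := mul_le_mul_of_nonneg_left b2 r1
  calc _ = (↑(n % k) : ℝ) * (6 * ↑((q + 1).choose 3)) + (↑k - ↑(n % k)) * (6 * ↑(q.choose 3)) := by
        ring
    _ ≤ (↑(n % k) : ℝ) * ((↑q + 1) * (↑n / ↑k + 1) ^ 2) +
        (↑k - ↑(n % k)) * (↑q * (↑n / ↑k + 1) ^ 2) := add_le_add c1 c2
    _ = (↑k * ↑q + ↑(n % k)) * (↑n / ↑k + 1) ^ 2 := by ring
    _ = n * (↑n / ↑k + 1) ^ 2 := by rw [← hn]

/-- the sum of the cubes of the sizes -/
noncomputable def S3 (c : Fin n → Fin k) : ℝ := ∑ j, sz c j ^ 3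

lemma sz_nonneg (j : Fin k) : 0 ≤ sz c j := Nat.cast_nonneg _

lemma Bo_le {β : ℝ} (hb : ∀ x y, c x = c y → ∑ v ∈ Cls c (c x), e H x y v ≤ β * sz c (c x))
    (i : Fin k) : Bo H c i ≤ β * sz c i ^ 3 := by
  unfold Bo
  have h1 : ∀ x ∈ Cls c i, ∀ y ∈ Cls c i, ∑ z ∈ Cls c i, e H x y z ≤ β * sz c i := by
    intro x hx y hy
    have cx : c x = i := (mem_filter.1 hx).2
    have cy : c y = i := (mem_filter.1 hy).2
    have := hb x y (cx.trans cy.symm)
    rw [cx] at this
    exact this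
  calc _ ≤ ∑ x ∈ Cls c i, ∑ y ∈ Cls c i, β * sz c i :=
        sum_le_sum fun x hx => sum_le_sum fun y hy => h1 x hx y hy
    _ = _ := by
      simp only [sum_const, nsmul_eq_mul]
      unfold sz
      ring

lemma S3_lower (a : ℝ) (ha : a * k = n) (ha0 : 0 ≤ a) (j : Fin k) :
    k * a ^ 3 + (sz c j ^ 3 - 3 * a ^ 2 * sz c j + 2 * a ^ 3) ≤ S3 c := by
  have h1 : ∀ i, 3 * a ^ 2 * sz c i - 2 * a ^ 3 ≤ sz c i ^ 3 := by
    intro i
    have := sz_nonneg (c := c) i
    nlinarith [mul_nonneg (add_nonneg this (mul_nonneg (by norm_num : (0:ℝ) ≤ 2) ha0))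
      (sq_nonneg (sz c i - a))]
  have h2 : ∑ i ∈ univ.erase j, (3 * a ^ 2 * sz c i - 2 * a ^ 3) ≤
      ∑ i ∈ univ.erase j, sz c i ^ 3 := sum_le_sum fun i _ => h1 i
  have h3 : ∑ i ∈ univ.erase j, sz c i ^ 3 + sz c j ^ 3 = S3 c :=
    sum_erase_add univ _ (mem_univ j)
  have h4 : ∑ i ∈ univ.erase j, (3 * a ^ 2 * sz c i - 2 * a ^ 3) +
      (3 * a ^ 2 * sz c j - 2 * a ^ 3) = ∑ i, (3 * a ^ 2 * sz c i - 2 * a ^ 3) :=
    sum_erase_add univ _ (mem_univ j)
  have h5 : ∑ i, (3 * a ^ 2 * sz c i - 2 * a ^ 3) = k * a ^ 3 := by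
    rw [sum_sub_distrib, ← mul_sum, sum_sz]
    simp only [sum_const, card_univ, Fintype.card_fin, nsmul_eq_mul]
    rw [← ha]
    ring
  linarith

theorem main (hk : 2 ≤ k) (hn : 100 * k ^ 2 ≤ n)
    (hF : ∀ S : Finset (Fin n), S.card = 2 * k + 1 → ∃ s ⊆ S, s.card = 3 ∧ s ∉ H)
    (h3 : ∀ s ∈ H, s.card = 3)
    (hc : ∀ x y, x ≠ y → c x = c y →
      12 * k * (univ.filter fun z => c z = c x ∧ ({x, y, z} : Finset (Fin n)) ∈ H).card ≤
        (univ.filter fun z => c z = c x).card) :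
    6 * (H.card : ℝ) + ((H \ turan c).card + (turan c \ H).card) + 6 * (bal n k : ℕ) ≤
      6 * (n.choose 3 : ℕ) := by
  have hk0 : (0 : ℝ) < k := by positivity
  have hk2 : (2 : ℝ) ≤ k := by exact_mod_cast hk
  have hnR : 100 * (k : ℝ) ^ 2 ≤ n := by exact_mod_cast hn
  have hn0 : (0 : ℝ) < n := by nlinarith
  set β : ℝ := 1 / (12 * k) with hβ
  have hβ0 : 0 < β := by positivity
  have hb : ∀ x y, c x = c y → ∑ v ∈ Cls c (c x), e H x y v ≤ β * sz c (c x) := by
    intro x y hxy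
    by_cases h : x = y
    · subst h
      have : ∑ v ∈ Cls c (c x), e H x x v = 0 := by
        refine sum_eq_zero fun v _ => ?_
        unfold e
        rw [if_neg]
        intro h'
        exact (ne_of_card3 (h3 _ h')).1 rfl
      rw [this]
      have := sz_nonneg (c := c) (c x)
      positivity
    · have h1 := hc x y h hxy
      have h2 : ∑ v ∈ Cls c (c x), e H x y v =
          ((univ.filter fun z => c z = c x ∧ ({x, y, z} : Finset (Fin n)) ∈ H).card : ℝ) := by
        unfold Cls e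
        rw [← filter_filter, card_filter]
        push_cast
        rfl
      rw [h2]
      have h3 : (12 : ℝ) * k * ((univ.filter fun z => c z = c x ∧
          ({x, y, z} : Finset (Fin n)) ∈ H).card : ℝ) ≤ sz c (c x) := by
        unfold sz Cls
        exact_mod_cast h1
      rw [hβ, div_mul_eq_mul_div, one_mul, le_div_iff₀ (by positivity)]
      linarith
  -- counts
  have q1 := card_inside (c := c) h3
  have q2 := card_missing (H := H) (c := c)
  have q3 : ((turan c).card : ℝ) + ∑ j, (((Cls c j).card.choose 3 : ℕ) : ℝ) = (n.choose 3 : ℕ) := by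
    exact_mod_cast card_turan (c := c)
  have q4 : (H.card : ℝ) + ((turan c \ H).card : ℝ) = ((turan c).card : ℝ) + (H \ turan c).card := by
    have h1 := card_sdiff_add_card_inter H (turan c)
    have h2 := card_sdiff_add_card_inter (turan c) H
    rw [inter_comm] at h2
    have h1' : (((H \ turan c).card : ℕ) : ℝ) + (H ∩ turan c).card = H.card := by exact_mod_cast h1
    have h2' : (((turan c \ H).card : ℕ) : ℝ) + (H ∩ turan c).card = (turan c).card := by
      exact_mod_cast h2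
    linarith
  set X : ℝ := ((H \ turan c).card : ℝ) with hX
  set Y : ℝ := ((turan c \ H).card : ℝ) with hY
  set σ : ℝ := ∑ j, (((Cls c j).card.choose 3 : ℕ) : ℝ) with hσ
  have hX0 : 0 ≤ X := Nat.cast_nonneg _
  have hY0 : 0 ≤ Y := Nat.cast_nonneg _
  have hbal := bal_le (n := n) (c := c) (by omega : 0 < k)
  rw [← hσ] at hbal
  suffices h : 7 * X + 6 * (bal n k : ℕ) ≤ 6 * σ + 5 * Y by linarith
  have hS : ∑ i, Bo H c i ≤ β * S3 c := by
    unfold S3
    rw [mul_sum]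
    exact sum_le_sum fun i _ => Bo_le hb i
  set a : ℝ := (n : ℝ) / k with ha
  have hak : a * k = n := by rw [ha]; field_simp
  have ha0 : 0 < a := by positivity
  have hak' : 100 * (k : ℝ) ≤ a := by
    rw [ha, le_div_iff₀ hk0]; nlinarith
  by_cases hcase : k * a ^ 3 ≤ (1 - 2 * β) * S3 c
  · -- far from balanced
    have h6σ : 6 * σ = S3 c - 3 * ∑ j, sz c j ^ 2 + 2 * n := by
      rw [hσ, mul_sum]
      have : ∀ j ∈ (univ : Finset (Fin k)), (6 : ℝ) * (((Cls c j).card.choose 3 : ℕ) : ℝ) =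
          sz c j ^ 3 - 3 * sz c j ^ 2 + 2 * sz c j := fun j _ => six_choose _
      rw [sum_congr rfl this, sum_add_distrib, sum_sub_distrib, ← mul_sum, ← mul_sum, sum_sz]
      rfl
    have hS2 : 3 * ∑ j, sz c j ^ 2 ≤ β / 3 * S3 c + 27 / (4 * β) * n := by
      rw [← sum_sz (c := c)]
      unfold S3
      rw [mul_sum, mul_sum, mul_sum, ← sum_add_distrib]
      refine sum_le_sum fun j _ => ?_
      have h0 := sz_nonneg (c := c) j
      have : 0 ≤ sz c j * (β / 3) * (sz c j - 9 / (2 * β)) ^ 2 := by positivity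
      have e1 : sz c j * (β / 3) * (sz c j - 9 / (2 * β)) ^ 2 =
          β / 3 * sz c j ^ 3 - 3 * sz c j ^ 2 + 27 / (4 * β) * sz c j := by
        field_simp
        ring
      linarith
    have h6b := six_bal_le (n := n) (by omega : 0 < k)
    rw [← ha] at h6b
    have hS3 : k * a ^ 3 ≤ S3 c := by
      have : 0 ≤ S3 c := sum_nonneg fun j _ => pow_nonneg (sz_nonneg j) 3
      nlinarith
    have hβ' : 27 / (4 * β) = 81 * k := by rw [hβ]; field_simp; norm_num
    rw [hβ'] at hS2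
    have hX' : 7 * X ≤ 7 / 6 * (β * S3 c) := by linarith
    have hfin : 2 * n * a + 81 * k * n ≤ β / 2 * S3 c := by
      have h1 : β / 2 * (k * a ^ 3) ≤ β / 2 * S3 c := mul_le_mul_of_nonneg_left hS3 (by positivity)
      have h2 : β / 2 * (k * a ^ 3) = a ^ 3 / 24 := by rw [hβ]; field_simp; norm_num
      rw [h2] at h1
      refine le_trans ?_ h1
      rw [← hak]
      -- 2 a² k + 81 k² a ≤ a³ / 24
      have h3 : 48 * k * a + 1944 * (k : ℝ) ^ 2 ≤ a ^ 2 := by nlinarith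
      nlinarith [mul_le_mul_of_nonneg_left h3 ha0.le]
    have e2 : (n : ℝ) * (a + 1) ^ 2 = k * a ^ 3 + 2 * n * a + n := by rw [← hak]; ring
    rw [e2] at h6b
    have hY5 : 0 ≤ 5 * Y := by linarith
    linarith
  · -- nearly balanced
    push Not at hcase
    have h1β : 11 / 12 ≤ 1 - 2 * β := by
      rw [hβ]
      have : 2 * (1 / (12 * (k : ℝ))) ≤ 1 / 12 := by
        rw [← mul_div_assoc, div_le_div_iff₀ (by positivity) (by norm_num)]
        nlinarith
      linarith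
    have hβk : 2 * β * k = 1 / 6 := by rw [hβ]; field_simp; norm_num
    have hsz : ∀ j, 0.74 * a ≤ sz c j := by
      intro j
      by_contra hj
      push Not at hj
      have h0 := sz_nonneg (c := c) j
      have h1 := S3_lower (c := c) a hak ha0.le j
      have h2 : 0.185 * a ^ 3 ≤ sz c j ^ 3 - 3 * a ^ 2 * sz c j + 2 * a ^ 3 := by
        have h5 : 0 ≤ (0.74 * a - sz c j) * (3 * a ^ 2 - (sz c j ^ 2 + 0.74 * a * sz c j +
            (0.74 * a) ^ 2)) := by
          apply mul_nonneg (by linarith)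
          nlinarith
        have h6 : 0 < a ^ 3 := by positivity
        nlinarith
      have h7 : (1 - 2 * β) * (k * a ^ 3 + 0.185 * a ^ 3) < k * a ^ 3 := by
        refine lt_of_le_of_lt ?_ hcase
        apply mul_le_mul_of_nonneg_left _ (by linarith)
        linarith
      have h8 : (1 - 2 * β) * (k * a ^ 3 + 0.185 * a ^ 3) =
          k * a ^ 3 - (2 * β * k) * a ^ 3 + (1 - 2 * β) * (0.185 * a ^ 3) := by ring
      rw [h8, hβk] at h7
      have h9 : 11 / 12 * (0.185 * a ^ 3) ≤ (1 - 2 * β) * (0.185 * a ^ 3) :=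
        mul_le_mul_of_nonneg_right h1β (by positivity)
      have h10 : 0 < a ^ 3 := by positivity
      nlinarith
    have hm : (0 : ℝ) < 0.74 * a := by positivity
    have hM0 : 0 ≤ Mt H c := by rw [← q2]; positivity
    have hmain : (∑ i, Bo H c i) * (1 - (k - 1) / (0.74 * a)) ≤
        3 * β * S3 c / (0.74 * a) ^ 3 * Mt H c := by
      have : ∀ i ∈ (univ : Finset (Fin k)), Bo H c i * (1 - (k - 1) / (0.74 * a)) ≤
          3 * β * sz c i ^ 3 / (0.74 * a) ^ 3 * Mt H c :=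
        fun i _ => main_i hF h3 hβ0.le hm hsz hb i
      have h := sum_le_sum this
      rw [← sum_mul, ← sum_mul, ← sum_div, ← mul_sum] at h
      exact h
    have hκ : 0.9864 ≤ 1 - (k - 1) / (0.74 * a) := by
      have : ((k : ℝ) - 1) / (0.74 * a) ≤ 0.0136 := by
        rw [div_le_iff₀ hm]
        nlinarith
      linarith
    have hθ : 3 * β * S3 c / (0.74 * a) ^ 3 ≤ 0.6731 := by
      rw [div_le_iff₀ (by positivity)]
      have h1 : S3 c * (11 / 12) ≤ k * a ^ 3 := by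
        have : 0 ≤ S3 c := sum_nonneg fun j _ => pow_nonneg (sz_nonneg j) 3
        nlinarith
      have h2 : 3 * β * (S3 c * (11 / 12)) ≤ 3 * β * (k * a ^ 3) :=
        mul_le_mul_of_nonneg_left h1 (by positivity)
      have h3 : 3 * β * (k * a ^ 3) = 1 / 4 * a ^ 3 := by rw [hβ]; field_simp; norm_num
      rw [h3] at h2
      have h4 : 0 < a ^ 3 := by positivity
      nlinarith
    have hB0 : 0 ≤ ∑ i, Bo H c i := sum_nonneg fun i _ => Bo_nonneg i
    have h5 : (∑ i, Bo H c i) * 0.9864 ≤ 0.6731 * Mt H c :=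
      (mul_le_mul_of_nonneg_left hκ hB0).trans (hmain.trans (mul_le_mul_of_nonneg_right hθ hM0))
    rw [← q1, ← q2] at h5
    nlinarith

end Pool.Agent.X59.OC
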