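import Pool.Agent.X59.OC.Part

/-! The union bound, averaged over the choices of two vertices in every class. -/

set_option autoImplicit false
open Finset
open scoped Classical

namespace Pool.Agent.X59.OC

variable {n k : ℕ} {H : Finset (Finset (Fin n))} {c : Fin n → Fin k}

/-- the triple inside the class `i` -/
noncomputable def hT (H : Finset (Finset (Fin n))) {k : ℕ} (i : Fin k) (ω : Ix k → Fin n) : ℝ :=
  e H (ω none) (ω (some (i, false))) (ω (some (i, true)))

lemma hT_nonneg (i : Fin k) (ω : Ix k → Fin n) : 0 ≤ hT H i ω := e_nonneg _ _ _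

lemma six_le {i : Fin k} {ω : Ix k → Fin n} (h : ∃ a b d, Pr H i ω a b d) :
    (6 : ℝ) ≤ ∑ p : Ix k × Ix k × Ix k, (if Pr H i ω p.1 p.2.1 p.2.2 then (1 : ℝ) else 0) := by
  obtain ⟨a, b, d, h⟩ := h
  have hab := h.1
  have had := h.2.1
  have hbd := h.2.2.1
  have q1 := h
  have q2 := Pr_swap23 h
  have q3 := Pr_swap12 h
  have q4 := Pr_swap23 q3
  have q5 := Pr_swap12 q2
  have q6 := Pr_swap23 q5
  have hsub : ({(a, b, d), (a, d, b), (b, a, d), (b, d, a), (d, a, b), (d, b, a)} :
      Finset (Ix k × Ix k × Ix k)) ⊆ univ.filter fun p => Pr H i ω p.1 p.2.1 p.2.2 := by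
    intro p hp
    simp only [mem_insert, mem_singleton] at hp
    rw [mem_filter]
    refine ⟨mem_univ _, ?_⟩
    rcases hp with rfl | rfl | rfl | rfl | rfl | rfl <;> assumption
  have hc : ({(a, b, d), (a, d, b), (b, a, d), (b, d, a), (d, a, b), (d, b, a)} :
      Finset (Ix k × Ix k × Ix k)).card = 6 := by
    rw [card_insert_of_notMem, card_insert_of_notMem, card_insert_of_notMem,
      card_insert_of_notMem, card_insert_of_notMem, card_singleton]
    all_goals simp [hab, had, hbd, Ne.symm hab, Ne.symm had, Ne.symm hbd]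
  have := card_le_card hsub
  rw [hc] at this
  rw [← sum_filter]
  simp only [sum_const, nsmul_eq_mul, mul_one]
  exact_mod_cast this

lemma point_sum (hF : ∀ S : Finset (Fin n), S.card = 2 * k + 1 → ∃ s ⊆ S, s.card = 3 ∧ s ∉ H)
    (h3 : ∀ s ∈ H, s.card = 3) {i : Fin k} {ω : Ix k → Fin n} (hω : ∀ a, c (ω a) = cl i a) :
    hT H i ω ≤ ∑ j ∈ univ.erase i,
        (if ω (some (j, false)) = ω (some (j, true)) then (1 : ℝ) else 0) * hT H i ω +
      1 / 6 * ∑ p : Ix k × Ix k × Ix k,
        (if Pr H i ω p.1 p.2.1 p.2.2 then (1 : ℝ) else 0) * hT H i ω := by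
  by_cases he : ({ω none, ω (some (i, false)), ω (some (i, true))} : Finset (Fin n)) ∈ H
  · have h1 : hT H i ω = 1 := by unfold hT e; rw [if_pos he]
    rw [h1]
    simp only [mul_one]
    have n1 : ∀ j ∈ univ.erase i,
        (0 : ℝ) ≤ (if ω (some (j, false)) = ω (some (j, true)) then (1 : ℝ) else 0) := by
      intro j _; split_ifs <;> norm_num
    have n2 : ∀ p ∈ (univ : Finset (Ix k × Ix k × Ix k)),
        (0 : ℝ) ≤ (if Pr H i ω p.1 p.2.1 p.2.2 then (1 : ℝ) else 0) := by
      intro p _; split_ifs <;> norm_num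
    rcases point hF h3 hω he with ⟨j, hj, hjj⟩ | h
    · have := single_le_sum n1 (mem_erase.2 ⟨hj, mem_univ j⟩)
      rw [if_pos hjj] at this
      have := sum_nonneg n2
      linarith
    · have := six_le h
      have := sum_nonneg n1
      linarith
  · have h1 : hT H i ω = 0 := by unfold hT e; rw [if_neg he]
    rw [h1]
    simp

/-- the product of the classes -/
noncomputable def Om (c : Fin n → Fin k) (i : Fin k) : Finset (Ix k → Fin n) :=
  Fintype.piFinset fun a => Cls c (cl i a)

lemma mem_Om {i : Fin k} {ω : Ix k → Fin n} : ω ∈ Om c i ↔ ∀ a, c (ω a) = cl i a := by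
  unfold Om Cls
  simp

/-- the number of vertices in a class -/
noncomputable def sz (c : Fin n → Fin k) (j : Fin k) : ℝ := ((Cls c j).card : ℝ)

lemma avg_eq {i j : Fin k} (hj : j ≠ i) :
    sz c j * ∑ ω ∈ Om c i,
        (if ω (some (j, false)) = ω (some (j, true)) then (1 : ℝ) else 0) * hT H i ω =
      ∑ ω ∈ Om c i, hT H i ω := by
  have h := sum_upd (fun a => Cls c (cl i a)) (some (j, false) : Ix k)
    (fun ω => (if ω (some (j, false)) = ω (some (j, true)) then (1 : ℝ) else 0) * hT H i ω)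
  have h' : sz c j = ((Cls c (cl i (some (j, false)))).card : ℝ) := rfl
  rw [h']
  refine h.trans ?_
  refine sum_congr rfl fun ω hω => ?_
  have hT' : ∀ v, hT H i (Function.update ω (some (j, false)) v) = hT H i ω := by
    intro v
    unfold hT
    rw [Function.update_of_ne (by simp), Function.update_of_ne (by simp [Ne.symm hj]),
      Function.update_of_ne (by simp)]
  have h2 : ∀ v, Function.update ω (some (j, false)) v (some (j, true)) = ω (some (j, true)) := by
    intro v
    rw [Function.update_of_ne (by simp)]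
  simp only [Function.update_self, hT', h2]
  rw [← sum_mul]
  have hm : ω (some (j, true)) ∈ Cls c (cl i (some (j, false))) := by
    have := (mem_Om.1 hω) (some (j, true))
    exact mem_filter.2 ⟨mem_univ _, this⟩
  rw [sum_eq_single (ω (some (j, true)))]
  · simp
  · intro b _ hb
    rw [if_neg hb]
  · intro h; exact absurd hm h

lemma e_swap12 (x y z : Fin n) : e H x y z = e H y x z := by
  unfold e
  rw [show ({x, y, z} : Finset (Fin n)) = {y, x, z} from by
    ext w; simp only [mem_insert, mem_singleton]; tauto]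

lemma e_swap23 (x y z : Fin n) : e H x y z = e H x z y := by
  unfold e
  rw [show ({x, y, z} : Finset (Fin n)) = {x, z, y} from by
    ext w; simp only [mem_insert, mem_singleton]; tauto]

/-- the codegree condition bounds the mean over a coordinate inside the class -/
lemma avg_le {β : ℝ}
    (hb : ∀ x y, c x = c y → ∑ v ∈ Cls c (c x), e H x y v ≤ β * sz c (c x))
    {i : Fin k} {ω : Ix k → Fin n} (hω : ω ∈ Om c i) {t : Ix k}
    (ht : t = none ∨ t = some (i, false) ∨ t = some (i, true)) :
    ∑ v ∈ Cls c (cl i t), hT H i (Function.update ω t v) ≤ β * sz c i := by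
  have hω' := mem_Om.1 hω
  have c0 : c (ω none) = i := hω' none
  have c1 : c (ω (some (i, false))) = i := hω' _
  have c2 : c (ω (some (i, true))) = i := hω' _
  rcases ht with rfl | rfl | rfl
  · have : ∀ v, hT H i (Function.update ω none v) =
        e H (ω (some (i, false))) (ω (some (i, true))) v := by
      intro v
      unfold hT
      rw [Function.update_self, Function.update_of_ne (by simp), Function.update_of_ne (by simp),
        e_swap12, e_swap23]
    simp only [this]
    have h := hb (ω (some (i, false))) (ω (some (i, true))) (by rw [c1, c2])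
    rw [c1] at h
    exact h
  · have : ∀ v, hT H i (Function.update ω (some (i, false)) v) =
        e H (ω none) (ω (some (i, true))) v := by
      intro v
      unfold hT
      rw [Function.update_self, Function.update_of_ne (by simp), Function.update_of_ne (by simp),
        e_swap23]
    simp only [this]
    have h := hb (ω none) (ω (some (i, true))) (by rw [c0, c2])
    rw [c0] at h
    exact h
  · have : ∀ v, hT H i (Function.update ω (some (i, true)) v) =
        e H (ω none) (ω (some (i, false))) v := by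
      intro v
      unfold hT
      rw [Function.update_self, Function.update_of_ne (by simp), Function.update_of_ne (by simp)]
    simp only [this]
    have h := hb (ω none) (ω (some (i, false))) (by rw [c0, c1])
    rw [c0] at h
    exact h

lemma exists_t {i : Fin k} {a b d : Ix k}
    (hne : ¬ (cl i a = cl i b ∧ cl i b = cl i d)) :
    ∃ t : Ix k, (t = none ∨ t = some (i, false) ∨ t = some (i, true)) ∧ a ≠ t ∧ b ≠ t ∧ d ≠ t := by
  by_contra hcon
  push Not at hcon
  have h0 := hcon none (Or.inl rfl)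
  have h1 := hcon (some (i, false)) (Or.inr (Or.inl rfl))
  have h2 := hcon (some (i, true)) (Or.inr (Or.inr rfl))
  have k0 : a = none ∨ b = none ∨ d = none := by tauto
  have k1 : a = some (i, false) ∨ b = some (i, false) ∨ d = some (i, false) := by tauto
  have k2 : a = some (i, true) ∨ b = some (i, true) ∨ d = some (i, true) := by tauto
  apply hne
  rcases k0 with h | h | h <;> rcases k1 with h' | h' | h' <;>
    rcases k2 with h'' | h'' | h'' <;>
    first
    | (exfalso; rw [h] at h'; simp at h')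
    | (exfalso; rw [h] at h''; simp at h'')
    | (exfalso; rw [h'] at h''; simp at h'')
    | (rw [h, h', h'']; exact ⟨rfl, rfl⟩)

lemma avg_pr {β : ℝ}
    (hb : ∀ x y, c x = c y → ∑ v ∈ Cls c (c x), e H x y v ≤ β * sz c (c x))
    {i : Fin k} (hi : 0 < sz c i) {a b d : Ix k} :
    ∑ ω ∈ Om c i, (if Pr H i ω a b d then (1 : ℝ) else 0) * hT H i ω ≤
      β * ∑ ω ∈ Om c i, (if Pr H i ω a b d then (1 : ℝ) else 0) := by
  by_cases hQ : a ≠ b ∧ a ≠ d ∧ b ≠ d ∧ ¬ (cl i a = cl i b ∧ cl i b = cl i d)
  · obtain ⟨_, _, _, hne⟩ := hQ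
    obtain ⟨t, ht, hta, htb, htd⟩ := exists_t hne
    have hct : cl i t = i := by rcases ht with rfl | rfl | rfl <;> rfl
    have h := sum_upd (fun a => Cls c (cl i a)) t
      (fun ω => (if Pr H i ω a b d then (1 : ℝ) else 0) * hT H i ω)
    have hP : ∀ (ω : Ix k → Fin n) v, Pr H i (Function.update ω t v) a b d ↔ Pr H i ω a b d := by
      intro ω v
      unfold Pr
      rw [Function.update_of_ne hta, Function.update_of_ne htb, Function.update_of_ne htd]
    simp only [hP] at h
    have hs : ((Cls c (cl i t)).card : ℝ) = sz c i := by rw [hct]; rfl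
    rw [hs] at h
    have h2 : ∑ ω ∈ Om c i, ∑ v ∈ Cls c (cl i t),
        (if Pr H i ω a b d then (1 : ℝ) else 0) * hT H i (Function.update ω t v) ≤
        ∑ ω ∈ Om c i, (if Pr H i ω a b d then (1 : ℝ) else 0) * (β * sz c i) := by
      refine sum_le_sum fun ω hω => ?_
      rw [← mul_sum]
      apply mul_le_mul_of_nonneg_left (avg_le hb hω ht)
      split_ifs <;> norm_num
    have h3 : sz c i * ∑ ω ∈ Om c i, (if Pr H i ω a b d then (1 : ℝ) else 0) * hT H i ω ≤
        sz c i * (β * ∑ ω ∈ Om c i, (if Pr H i ω a b d then (1 : ℝ) else 0)) := by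
      calc _ = _ := h
        _ ≤ _ := h2
        _ = _ := by rw [← sum_mul]; ring
    exact le_of_mul_le_mul_left h3 hi
  · have : ∀ ω, ¬ Pr H i ω a b d := fun ω h => hQ ⟨h.1, h.2.1, h.2.2.1, h.2.2.2.1⟩
    simp [this]

/-- the missing triples between three classes -/
noncomputable def Mc (H : Finset (Finset (Fin n))) (c : Fin n → Fin k) (p q r : Fin k) : ℝ :=
  if p = q ∧ q = r then 0 else
    ∑ x ∈ Cls c p, ∑ y ∈ Cls c q, ∑ z ∈ Cls c r, mi H x y z

lemma Mc_nonneg (p q r : Fin k) : 0 ≤ Mc H c p q r := by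
  unfold Mc
  split_ifs
  · exact le_refl _
  · exact sum_nonneg fun _ _ => sum_nonneg fun _ _ => sum_nonneg fun _ _ => mi_nonneg _ _ _

/-- number of choices -/
noncomputable def NO (c : Fin n → Fin k) (i : Fin k) : ℝ := ((Om c i).card : ℝ)

lemma sum_pr {m : ℝ} (hm : 0 < m) (hs : ∀ j, m ≤ sz c j) (i : Fin k) (a b d : Ix k) :
    ∑ ω ∈ Om c i, (if Pr H i ω a b d then (1 : ℝ) else 0) ≤
      NO c i / m ^ 3 * Mc H c (cl i a) (cl i b) (cl i d) := by
  have hN : 0 ≤ NO c i := Nat.cast_nonneg _
  by_cases hQ : a ≠ b ∧ a ≠ d ∧ b ≠ d ∧ ¬ (cl i a = cl i b ∧ cl i b = cl i d)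
  · obtain ⟨hab, had, hbd, hne⟩ := hQ
    have h := proj3 (fun a => Cls c (cl i a)) hab had hbd (mi H)
    have h1 : ∑ ω ∈ Om c i, (if Pr H i ω a b d then (1 : ℝ) else 0) =
        ∑ ω ∈ Om c i, mi H (ω a) (ω b) (ω d) := by
      refine sum_congr rfl fun ω _ => ?_
      unfold mi Pr
      congr 1
      simp only [ne_eq, hab, had, hbd, hne, not_false_eq_true, true_and]
    rw [h1]
    have h2 : Mc H c (cl i a) (cl i b) (cl i d) = ∑ x ∈ Cls c (cl i a), ∑ y ∈ Cls c (cl i b),
        ∑ z ∈ Cls c (cl i d), mi H x y z := by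
      unfold Mc
      rw [if_neg hne]
    rw [h2]
    set M := ∑ x ∈ Cls c (cl i a), ∑ y ∈ Cls c (cl i b), ∑ z ∈ Cls c (cl i d), mi H x y z with hM
    set X := ∑ ω ∈ Om c i, mi H (ω a) (ω b) (ω d) with hX
    have hX0 : 0 ≤ X := sum_nonneg fun ω _ => mi_nonneg _ _ _
    have h3 : sz c (cl i a) * sz c (cl i b) * sz c (cl i d) * X = NO c i * M := h
    have h4 : m ^ 3 ≤ sz c (cl i a) * sz c (cl i b) * sz c (cl i d) := by
      calc m ^ 3 = m * m * m := by ring
        _ ≤ _ := by
          apply mul_le_mul (mul_le_mul (hs _) (hs _) hm.le (hm.le.trans (hs _))) (hs _) hm.le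
          exact mul_nonneg (hm.le.trans (hs _)) (hm.le.trans (hs _))
    rw [div_mul_eq_mul_div, le_div_iff₀ (by positivity)]
    calc X * m ^ 3 = m ^ 3 * X := by ring
      _ ≤ sz c (cl i a) * sz c (cl i b) * sz c (cl i d) * X := mul_le_mul_of_nonneg_right h4 hX0
      _ = _ := h3
  · have : ∀ ω, ¬ Pr H i ω a b d := fun ω h => hQ ⟨h.1, h.2.1, h.2.2.1, h.2.2.2.1⟩
    simp only [this, if_false, sum_const_zero]
    have := Mc_nonneg (H := H) (c := c) (cl i a) (cl i b) (cl i d)
    positivity

lemma sum_ix (i : Fin k) (f : Fin k → ℝ) :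
    ∑ a : Ix k, f (cl i a) = ∑ j, (2 + if j = i then (1 : ℝ) else 0) * f j := by
  rw [Fintype.sum_option, Fintype.sum_prod_type]
  simp only [cl, Fintype.sum_bool]
  have : ∀ j, (2 + if j = i then (1 : ℝ) else 0) * f j = (f j + f j) +
      (if j = i then f j else 0) := by
    intro j
    split_ifs <;> ring
  simp only [this, sum_add_distrib]
  rw [sum_ite_eq' univ i f, if_pos (mem_univ i)]
  ring

/-- the total of the missing triples between different classes -/
noncomputable def Mt (H : Finset (Finset (Fin n))) (c : Fin n → Fin k) : ℝ :=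
  ∑ p, ∑ q, ∑ r, Mc H c p q r

lemma mult (i : Fin k) :
    ∑ p : Ix k × Ix k × Ix k, Mc H c (cl i p.1) (cl i p.2.1) (cl i p.2.2) ≤ 18 * Mt H c := by
  rw [Fintype.sum_prod_type]
  simp only [Fintype.sum_prod_type]
  have h1 : ∀ a b : Ix k, ∑ d : Ix k, Mc H c (cl i a) (cl i b) (cl i d) =
      ∑ r, (2 + if r = i then (1 : ℝ) else 0) * Mc H c (cl i a) (cl i b) r :=
    fun a b => sum_ix i _
  simp only [h1]
  have h2 : ∀ a : Ix k, ∑ b : Ix k, ∑ r, (2 + if r = i then (1 : ℝ) else 0) *
      Mc H c (cl i a) (cl i b) r = ∑ q, (2 + if q = i then (1 : ℝ) else 0) *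
        ∑ r, (2 + if r = i then (1 : ℝ) else 0) * Mc H c (cl i a) q r :=
    fun a => sum_ix i (fun q => ∑ r, (2 + if r = i then (1 : ℝ) else 0) * Mc H c (cl i a) q r)
  simp only [h2]
  rw [sum_ix i (fun p => ∑ q, (2 + if q = i then (1 : ℝ) else 0) *
    ∑ r, (2 + if r = i then (1 : ℝ) else 0) * Mc H c p q r)]
  unfold Mt
  rw [mul_sum]
  refine sum_le_sum fun p _ => ?_
  rw [mul_sum, mul_sum]
  refine sum_le_sum fun q _ => ?_
  rw [mul_sum, mul_sum, mul_sum]
  refine sum_le_sum fun r _ => ?_
  have hM := Mc_nonneg (H := H) (c := c) p q r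
  by_cases hpq : p = q ∧ q = r
  · have : Mc H c p q r = 0 := by unfold Mc; rw [if_pos hpq]
    rw [this]
    simp
  · have hw : ∀ j : Fin k, (2 : ℝ) ≤ 2 + (if j = i then (1 : ℝ) else 0) ∧
        2 + (if j = i then (1 : ℝ) else 0) ≤ 3 := by
      intro j; split_ifs <;> norm_num
    have key : (2 + if p = i then (1 : ℝ) else 0) * ((2 + if q = i then (1 : ℝ) else 0) *
        (2 + if r = i then (1 : ℝ) else 0)) ≤ 18 := by
      by_cases h1 : p = i
      · by_cases h2 : q = i
        · have h3 : r ≠ i := by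
            intro h3
            exact hpq ⟨h1.trans h2.symm, h2.trans h3.symm⟩
          rw [if_pos h1, if_pos h2, if_neg h3]
          norm_num
        · rw [if_pos h1, if_neg h2]
          have := (hw r).2
          linarith
      · rw [if_neg h1]
        have h4 := (hw q).2
        have h5 := (hw r).2
        have h6 := (hw q).1
        have h7 := (hw r).1
        nlinarith
    calc _ = (2 + if p = i then (1 : ℝ) else 0) * ((2 + if q = i then (1 : ℝ) else 0) *
        (2 + if r = i then (1 : ℝ) else 0)) * Mc H c p q r := by ring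
      _ ≤ 18 * Mc H c p q r := mul_le_mul_of_nonneg_right key hM

/-- the edges inside a class -/
noncomputable def Bo (H : Finset (Finset (Fin n))) (c : Fin n → Fin k) (i : Fin k) : ℝ :=
  ∑ x ∈ Cls c i, ∑ y ∈ Cls c i, ∑ z ∈ Cls c i, e H x y z

lemma Bo_nonneg (i : Fin k) : 0 ≤ Bo H c i :=
  sum_nonneg fun _ _ => sum_nonneg fun _ _ => sum_nonneg fun _ _ => e_nonneg _ _ _

lemma sum_hT (i : Fin k) : sz c i ^ 3 * ∑ ω ∈ Om c i, hT H i ω = NO c i * Bo H c i := by
  have h := proj3 (fun a => Cls c (cl i a)) (a := (none : Ix k)) (b := some (i, false))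
    (d := some (i, true)) (by simp) (by simp) (by simp) (e H)
  calc _ = sz c i * sz c i * sz c i * ∑ ω ∈ Om c i, hT H i ω := by ring
    _ = _ := h

/-- **The main inequality** for one class. -/
theorem main_i (hF : ∀ S : Finset (Fin n), S.card = 2 * k + 1 → ∃ s ⊆ S, s.card = 3 ∧ s ∉ H)
    (h3 : ∀ s ∈ H, s.card = 3) {β m : ℝ} (hβ : 0 ≤ β) (hm : 0 < m) (hs : ∀ j, m ≤ sz c j)
    (hb : ∀ x y, c x = c y → ∑ v ∈ Cls c (c x), e H x y v ≤ β * sz c (c x)) (i : Fin k) :
    Bo H c i * (1 - (k - 1) / m) ≤ 3 * β * sz c i ^ 3 / m ^ 3 * Mt H c := by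
  have hi : 0 < sz c i := hm.trans_le (hs i)
  have hN : 0 < NO c i := by
    unfold NO Om
    rw [Fintype.card_piFinset]
    have : 0 < ∏ a : Ix k, (Cls c (cl i a)).card := by
      apply prod_pos
      intro a _
      have := hm.trans_le (hs (cl i a))
      unfold sz at this
      exact_mod_cast this
    exact_mod_cast this
  set Y := ∑ ω ∈ Om c i, hT H i ω with hY
  have hY0 : 0 ≤ Y := sum_nonneg fun ω _ => hT_nonneg _ _
  -- sum of the pointwise bound
  have h1 : Y ≤ ∑ j ∈ univ.erase i, ∑ ω ∈ Om c i,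
        (if ω (some (j, false)) = ω (some (j, true)) then (1 : ℝ) else 0) * hT H i ω +
      1 / 6 * ∑ p : Ix k × Ix k × Ix k, ∑ ω ∈ Om c i,
        (if Pr H i ω p.1 p.2.1 p.2.2 then (1 : ℝ) else 0) * hT H i ω := by
    rw [sum_comm, sum_comm (s := (univ : Finset (Ix k × Ix k × Ix k))), mul_sum,
      ← sum_add_distrib]
    refine sum_le_sum fun ω hω => ?_
    exact point_sum hF h3 (mem_Om.1 hω)
  have h2 : ∑ j ∈ univ.erase i, ∑ ω ∈ Om c i,
        (if ω (some (j, false)) = ω (some (j, true)) then (1 : ℝ) else 0) * hT H i ω ≤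
      (k - 1) / m * Y := by
    have : ∀ j ∈ univ.erase i, ∑ ω ∈ Om c i,
        (if ω (some (j, false)) = ω (some (j, true)) then (1 : ℝ) else 0) * hT H i ω ≤
        Y / m := by
      intro j hj
      have h := avg_eq (H := H) (c := c) (mem_erase.1 hj).1
      have hj' := hs j
      rw [le_div_iff₀ hm]
      set Z := ∑ ω ∈ Om c i,
        (if ω (some (j, false)) = ω (some (j, true)) then (1 : ℝ) else 0) * hT H i ω with hZ
      have hZ0 : 0 ≤ Z := sum_nonneg fun ω _ => mul_nonneg (by split_ifs <;> norm_num)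
        (hT_nonneg _ _)
      calc Z * m = m * Z := by ring
        _ ≤ sz c j * Z := mul_le_mul_of_nonneg_right hj' hZ0
        _ = Y := h
    refine (sum_le_sum this).trans (le_of_eq ?_)
    rw [sum_const, card_erase_of_mem (mem_univ i), card_univ, Fintype.card_fin, nsmul_eq_mul]
    have hk1 : 1 ≤ k := by have := i.2; omega
    rw [Nat.cast_sub hk1]
    push_cast
    ring
  have h4 : ∑ p : Ix k × Ix k × Ix k, ∑ ω ∈ Om c i,
        (if Pr H i ω p.1 p.2.1 p.2.2 then (1 : ℝ) else 0) * hT H i ω ≤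
      β * (NO c i / m ^ 3) * (18 * Mt H c) := by
    calc _ ≤ ∑ p : Ix k × Ix k × Ix k, β * (NO c i / m ^ 3 *
          Mc H c (cl i p.1) (cl i p.2.1) (cl i p.2.2)) := by
          refine sum_le_sum fun p _ => ?_
          exact (avg_pr hb hi).trans (mul_le_mul_of_nonneg_left (sum_pr hm hs i _ _ _) hβ)
      _ = β * (NO c i / m ^ 3) * ∑ p : Ix k × Ix k × Ix k,
          Mc H c (cl i p.1) (cl i p.2.1) (cl i p.2.2) := by
          rw [mul_sum]
          refine sum_congr rfl fun p _ => ?_
          ring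
      _ ≤ _ := by
          apply mul_le_mul_of_nonneg_left (mult i)
          positivity
  have h5 : Y * (1 - (k - 1) / m) ≤ 3 * β * (NO c i / m ^ 3) * Mt H c := by
    have : Y * (1 - (k - 1) / m) = Y - (k - 1) / m * Y := by ring
    rw [this]
    nlinarith
  have h6 := sum_hT (H := H) (c := c) i
  rw [← hY] at h6
  have h7 : NO c i * (Bo H c i * (1 - (k - 1) / m)) ≤
      NO c i * (3 * β * sz c i ^ 3 / m ^ 3 * Mt H c) := by
    calc NO c i * (Bo H c i * (1 - (k - 1) / m)) = sz c i ^ 3 * (Y * (1 - (k - 1) / m)) := by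
          rw [← mul_assoc, ← h6]; ring
      _ ≤ sz c i ^ 3 * (3 * β * (NO c i / m ^ 3) * Mt H c) :=
          mul_le_mul_of_nonneg_left h5 (by positivity)
      _ = _ := by ring
  exact le_of_mul_le_mul_left h7 hN

end Pool.Agent.X59.OC
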