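import Pool.Agent.X59.OC.Avg

/-! Partitions of the vertices of a 3-graph without a complete 3-graph of odd order. -/

set_option autoImplicit false
open Finset
open scoped Classical

namespace Pool.Agent.X59.OC

/-- indicator of an edge -/
noncomputable def e {n : ℕ} (H : Finset (Finset (Fin n))) (x y z : Fin n) : ℝ :=
  if ({x, y, z} : Finset (Fin n)) ∈ H then 1 else 0
/-- three different vertices which do not form an edge -/
def Mi {n : ℕ} (H : Finset (Finset (Fin n))) (x y z : Fin n) : Prop :=
  x ≠ y ∧ x ≠ z ∧ y ≠ z ∧ ({x, y, z} : Finset (Fin n)) ∉ H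
noncomputable def mi {n : ℕ} (H : Finset (Finset (Fin n))) (x y z : Fin n) : ℝ :=
  if Mi H x y z then 1 else 0
noncomputable def Cls {n k : ℕ} (c : Fin n → Fin k) (j : Fin k) : Finset (Fin n) :=
  univ.filter fun x => c x = j

abbrev Ix (k : ℕ) := Option (Fin k × Bool)
def cl {k : ℕ} (i : Fin k) : Ix k → Fin k
  | none => i
  | some p => p.1

variable {n k : ℕ} {H : Finset (Finset (Fin n))} {c : Fin n → Fin k}

lemma e_nonneg (x y z : Fin n) : 0 ≤ e H x y z := by unfold e; split_ifs <;> norm_num
lemma mi_nonneg (x y z : Fin n) : 0 ≤ mi H x y z := by unfold mi; split_ifs <;> norm_num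

lemma Mi_swap12 {x y z : Fin n} (h : Mi H x y z) : Mi H y x z := by
  obtain ⟨h1, h2, h3, h4⟩ := h
  refine ⟨h1.symm, h3, h2, fun h => h4 ?_⟩
  rwa [show ({x, y, z} : Finset (Fin n)) = {y, x, z} from by
    ext w; simp only [mem_insert, mem_singleton]; tauto]

lemma Mi_swap23 {x y z : Fin n} (h : Mi H x y z) : Mi H x z y := by
  obtain ⟨h1, h2, h3, h4⟩ := h
  refine ⟨h2, h1, h3.symm, fun h => h4 ?_⟩
  rwa [show ({x, y, z} : Finset (Fin n)) = {x, z, y} from by
    ext w; simp only [mem_insert, mem_singleton]; tauto]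

/-- the three indices are different and not all in one class, and the vertices do not form an
edge -/
def Pr (H : Finset (Finset (Fin n))) {k : ℕ} (i : Fin k) (ω : Ix k → Fin n) (a b d : Ix k) : Prop :=
  a ≠ b ∧ a ≠ d ∧ b ≠ d ∧ ¬ (cl i a = cl i b ∧ cl i b = cl i d) ∧ Mi H (ω a) (ω b) (ω d)

lemma Pr_swap12 {i : Fin k} {ω : Ix k → Fin n} {a b d : Ix k} (h : Pr H i ω a b d) :
    Pr H i ω b a d := by
  obtain ⟨h1, h2, h3, h4, h5⟩ := h
  refine ⟨h1.symm, h3, h2, fun h => h4 ⟨h.1.symm, ?_⟩, Mi_swap12 h5⟩
  rw [h.1]; exact h.2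

lemma Pr_swap23 {i : Fin k} {ω : Ix k → Fin n} {a b d : Ix k} (h : Pr H i ω a b d) :
    Pr H i ω a d b := by
  obtain ⟨h1, h2, h3, h4, h5⟩ := h
  refine ⟨h2, h1, h3.symm, fun h => h4 ⟨?_, h.2.symm⟩, Mi_swap23 h5⟩
  rw [h.1]; exact h.2

lemma inj_of {i : Fin k} {ω : Ix k → Fin n} (hω : ∀ a, c (ω a) = cl i a)
    (h1 : ω none ≠ ω (some (i, false))) (h2 : ω none ≠ ω (some (i, true)))
    (h3 : ω (some (i, false)) ≠ ω (some (i, true)))
    (hj : ∀ j, j ≠ i → ω (some (j, false)) ≠ ω (some (j, true))) : Function.Injective ω := by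
  intro a b hab
  by_contra hne
  have hc : cl i a = cl i b := by rw [← hω a, ← hω b, hab]
  rcases a with _ | ⟨ja, ba⟩ <;> rcases b with _ | ⟨jb, bb⟩
  · exact hne rfl
  · simp only [cl] at hc
    subst hc
    cases bb
    · exact h1 hab
    · exact h2 hab
  · simp only [cl] at hc
    subst hc
    cases ba
    · exact h1 hab.symm
    · exact h2 hab.symm
  · simp only [cl] at hc
    subst hc
    by_cases hji : ja = i
    · subst hji
      cases ba <;> cases bb
      · exact hne rfl
      · exact h3 hab
      · exact h3 hab.symm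
      · exact hne rfl
    · cases ba <;> cases bb
      · exact hne rfl
      · exact hj _ hji hab
      · exact hj _ hji hab.symm
      · exact hne rfl

lemma point (hF : ∀ S : Finset (Fin n), S.card = 2 * k + 1 → ∃ s ⊆ S, s.card = 3 ∧ s ∉ H)
    (h3 : ∀ s ∈ H, s.card = 3) {i : Fin k} {ω : Ix k → Fin n} (hω : ∀ a, c (ω a) = cl i a)
    (he : ({ω none, ω (some (i, false)), ω (some (i, true))} : Finset (Fin n)) ∈ H) :
    (∃ j, j ≠ i ∧ ω (some (j, false)) = ω (some (j, true))) ∨ ∃ a b d, Pr H i ω a b d := by
  by_cases hj : ∃ j, j ≠ i ∧ ω (some (j, false)) = ω (some (j, true))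
  · exact Or.inl hj
  · right
    push Not at hj
    have hd := h3 _ he
    rw [card_eq_three] at hd
    have hcard := h3 _ he
    have d1 : ω none ≠ ω (some (i, false)) := by
      intro h
      rw [h] at hcard
      rw [insert_eq_of_mem (mem_insert_self _ _)] at hcard
      have := card_le_two (a := ω (some (i, false))) (b := ω (some (i, true)))
      omega
    have d2 : ω none ≠ ω (some (i, true)) := by
      intro h
      rw [h] at hcard
      rw [insert_eq_of_mem (by simp)] at hcard
      have := card_le_two (a := ω (some (i, false))) (b := ω (some (i, true)))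
      omega
    have d3 : ω (some (i, false)) ≠ ω (some (i, true)) := by
      intro h
      rw [h] at hcard
      rw [insert_eq_of_mem (mem_singleton_self _)] at hcard
      have := card_le_two (a := ω none) (b := ω (some (i, true)))
      omega
    have hinj := inj_of hω d1 d2 d3 hj
    have hS : (univ.image ω).card = 2 * k + 1 := by
      rw [card_image_of_injective _ hinj, card_univ]
      simp
      ring
    obtain ⟨s, hs, hs3, hsH⟩ := hF _ hS
    obtain ⟨x, y, z, hxy, hxz, hyz, rfl⟩ := card_eq_three.1 hs3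
    have hx := hs (show x ∈ ({x, y, z} : Finset (Fin n)) by simp)
    have hy := hs (show y ∈ ({x, y, z} : Finset (Fin n)) by simp)
    have hz := hs (show z ∈ ({x, y, z} : Finset (Fin n)) by simp)
    rw [mem_image] at hx hy hz
    obtain ⟨a, -, rfl⟩ := hx
    obtain ⟨b, -, rfl⟩ := hy
    obtain ⟨d, -, rfl⟩ := hz
    have hab : a ≠ b := fun h => hxy (by rw [h])
    have had : a ≠ d := fun h => hxz (by rw [h])
    have hbd : b ≠ d := fun h => hyz (by rw [h])
    refine ⟨a, b, d, hab, had, hbd, ?_, hxy, hxz, hyz, hsH⟩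
    rintro ⟨e1, e2⟩
    apply hsH
    have key : ∀ S : Finset (Fin n), S = {ω none, ω (some (i, false)), ω (some (i, true))} →
        S ∈ H := fun S hS => hS ▸ he
    apply key
    rcases a with _ | ⟨ja, ba⟩ <;> rcases b with _ | ⟨jb, bb⟩ <;> rcases d with _ | ⟨jd, bd⟩ <;>
      simp only [cl] at e1 e2
    · exact absurd rfl hab
    · exact absurd rfl hab
    · exact absurd rfl had
    · subst e1; subst e2
      cases bb <;> cases bd
      · exact absurd rfl hbd
      · rfl
      · ext w; simp only [mem_insert, mem_singleton]; tauto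
      · exact absurd rfl hbd
    · exact absurd rfl hbd
    · subst e1; subst e2
      cases ba <;> cases bd
      · exact absurd rfl had
      · ext w; simp only [mem_insert, mem_singleton]; tauto
      · ext w; simp only [mem_insert, mem_singleton]; tauto
      · exact absurd rfl had
    · subst e1; subst e2
      cases ba <;> cases bb
      · exact absurd rfl hab
      · ext w; simp only [mem_insert, mem_singleton]; tauto
      · ext w; simp only [mem_insert, mem_singleton]; tauto
      · exact absurd rfl hab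
    · subst e1; subst e2
      cases ba <;> cases bb <;> cases bd <;> simp at hab had hbd

end Pool.Agent.X59.OC
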